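import Mathlib

set_option autoImplicit false

namespace Pool.Agent.Results.MP_542d22_co.MaderFalse

/-- A digraph with vertex set `V` and edge set `E`: every edge has a tail and a head, which are
distinct (no loops); parallel edges are allowed. -/
structure Dig (V E : Type) where
  tail : E → V
  head : E → V
  noLoop : ∀ e, tail e ≠ head e

variable {V E : Type}

/-- `IsWalk D x y l`: the list of edges `l` is a directed walk from `x` to `y`. -/
def IsWalk (D : Dig V E) : V → V → List E → Prop
  | x, y, [] => x = y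
  | x, y, e :: l => D.tail e = x ∧ IsWalk D (D.head e) y l

/-- `IsPath D x y l`: the list of edges `l` is a directed path from `x` to `y`, that is, a directed
walk whose vertices `x, head e₁, head e₂, …` are pairwise distinct. -/
def IsPath (D : Dig V E) (x y : V) (l : List E) : Prop :=
  IsWalk D x y l ∧ (x :: l.map D.head).Nodup

/-- There are `k` pairwise edge-disjoint directed paths from `x` to `y`. -/
def HasDisjointPaths (D : Dig V E) (x y : V) (k : ℕ) : Prop :=
  ∃ P : Fin k → List E, (∀ i, IsPath D x y (P i)) ∧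
    ∀ i j, i ≠ j → ∀ e, e ∈ P i → e ∉ P j

/-- `lam D x y` is the largest number of pairwise edge-disjoint directed paths from `x` to `y`. -/
noncomputable def lam (D : Dig V E) (x y : V) : ℕ :=
  sSup {k | HasDisjointPaths D x y k}

/-- The out-degree of a vertex: the number of edges having it as tail. -/
noncomputable def outDeg [Fintype E] (D : Dig V E) (v : V) : ℕ :=
  Nat.card {e : E // D.tail e = v}

/-- A walk from inside `S` to outside `S` uses an edge leaving `S`. -/
lemma exists_leaving (D : Dig V E) (S : Set V) :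
    ∀ (l : List E) (x y : V), IsWalk D x y l → x ∈ S → y ∉ S →
      ∃ e ∈ l, D.tail e ∈ S ∧ D.head e ∉ S
  | [], x, y, h, hx, hy => by
      simp only [IsWalk] at h
      exact absurd (h ▸ hx) hy
  | e :: l, x, y, h, hx, hy => by
      simp only [IsWalk] at h
      by_cases hh : D.head e ∈ S
      · obtain ⟨f, hf, h1⟩ := exists_leaving D S l (D.head e) y h.2 hh hy
        exact ⟨f, List.mem_cons_of_mem _ hf, h1⟩
      · exact ⟨e, List.mem_cons_self, by rw [h.1]; exact hx, hh⟩

/-- The cut bound: if all edges leaving `S` lie in the range of a map from `Fin m`, then there are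
at most `m` edge-disjoint paths from a vertex of `S` to a vertex outside `S`. -/
lemma cut_bound (D : Dig V E) (S : Set V) (x y : V) (hx : x ∈ S) (hy : y ∉ S) (m : ℕ)
    (c : Fin m → E) (hc : ∀ e, D.tail e ∈ S → D.head e ∉ S → ∃ i, c i = e)
    (k : ℕ) (hk : HasDisjointPaths D x y k) : k ≤ m := by
  obtain ⟨P, hP, hd⟩ := hk
  have h1 : ∀ i : Fin k, ∃ j : Fin m, c j ∈ P i := by
    intro i
    obtain ⟨e, he, h2, h3⟩ := exists_leaving D S (P i) x y (hP i).1 hx hy
    obtain ⟨j, hj⟩ := hc e h2 h3
    exact ⟨j, hj ▸ he⟩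
  choose f hf using h1
  have hinj : Function.Injective f := by
    intro i i' h
    by_contra hne
    exact hd i i' hne (c (f i)) (hf i) (h ▸ hf i')
  simpa using Fintype.card_le_of_injective f hinj

/-- A version of the cut bound for `lam`. -/
lemma lam_le (D : Dig V E) (S : Set V) (x y : V) (hx : x ∈ S) (hy : y ∉ S) (m : ℕ)
    (c : Fin m → E) (hc : ∀ e, D.tail e ∈ S → D.head e ∉ S → ∃ i, c i = e) :
    lam D x y ≤ m := by
  have hz : HasDisjointPaths D x y 0 :=
    ⟨fun i => i.elim0, fun i => i.elim0, fun i => i.elim0⟩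
  exact csSup_le ⟨0, hz⟩ (fun k hk => cut_bound D S x y hx hy m c hc k hk)

/-- Vertices of the example: `none` is the hub `y`; `some (i, false)` is `uᵢ` and
`some (i, true)` is `vᵢ`. -/
abbrev Vtx (r : ℕ) := Option (Fin r × Bool)

/-- Edges of the example: for every `i : Fin r` there are `r - 1` edges `uᵢ → vᵢ`, two edges
`vᵢ → uᵢ`, one edge `uᵢ → y`, `r - 2` edges `vᵢ → y` and one edge `y → uᵢ`. -/
abbrev Edg (r : ℕ) := Fin r × (Fin (r - 1) ⊕ Fin 2 ⊕ Unit ⊕ Fin (r - 2) ⊕ Unit)

/-- The tail of an edge. -/
def tl (r : ℕ) : Edg r → Vtx r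
  | (i, Sum.inl _) => some (i, false)
  | (i, Sum.inr (Sum.inl _)) => some (i, true)
  | (i, Sum.inr (Sum.inr (Sum.inl _))) => some (i, false)
  | (i, Sum.inr (Sum.inr (Sum.inr (Sum.inl _)))) => some (i, true)
  | (_, Sum.inr (Sum.inr (Sum.inr (Sum.inr _)))) => none

/-- The head of an edge. -/
def hd (r : ℕ) : Edg r → Vtx r
  | (i, Sum.inl _) => some (i, true)
  | (i, Sum.inr (Sum.inl _)) => some (i, false)
  | (_, Sum.inr (Sum.inr (Sum.inl _))) => none
  | (_, Sum.inr (Sum.inr (Sum.inr (Sum.inl _)))) => none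
  | (i, Sum.inr (Sum.inr (Sum.inr (Sum.inr _)))) => some (i, false)

/-- The example digraph. -/
def ex (r : ℕ) : Dig (Vtx r) (Edg r) where
  tail := tl r
  head := hd r
  noLoop := by
    rintro ⟨i, (a | a | a | a | a)⟩ <;> simp [tl, hd]

lemma outDeg_ge (r : ℕ) (hr : 2 ≤ r) (v : Vtx r) : r ≤ outDeg (ex r) v := by
  have key : ∀ c : Fin r → Edg r, Function.Injective c → (∀ j, tl r (c j) = v) →
      r ≤ outDeg (ex r) v := by
    intro c hc ht
    have h1 : Nat.card (Fin r) ≤ Nat.card {e : Edg r // (ex r).tail e = v} :=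
      Nat.card_le_card_of_injective (fun j => (⟨c j, ht j⟩ : {e : Edg r // (ex r).tail e = v}))
        (fun a b h => hc (congrArg Subtype.val h))
    simpa [outDeg] using h1
  match v with
  | none =>
      refine key (fun j => (j, Sum.inr (Sum.inr (Sum.inr (Sum.inr ()))))) ?_ (fun j => rfl)
      intro a b h
      simpa using h
  | some (i, false) =>
      refine key (fun j => if h : (j : ℕ) < r - 1 then (i, Sum.inl ⟨j, h⟩) else
        (i, Sum.inr (Sum.inr (Sum.inl ())))) ?_ ?_
      · intro a b h
        by_cases ha : (a : ℕ) < r - 1 <;> by_cases hb : (b : ℕ) < r - 1 <;>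
          simp [ha, hb] at h
        · exact Fin.ext h
        · exact Fin.ext (by omega)
      · intro j
        by_cases hj : (j : ℕ) < r - 1 <;> simp [hj, tl]
  | some (i, true) =>
      refine key (fun j => if h : (j : ℕ) < r - 2 then
        (i, Sum.inr (Sum.inr (Sum.inr (Sum.inl ⟨j, h⟩)))) else
        (i, Sum.inr (Sum.inl ⟨(j : ℕ) - (r - 2), by omega⟩))) ?_ ?_
      · intro a b h
        by_cases ha : (a : ℕ) < r - 2 <;> by_cases hb : (b : ℕ) < r - 2 <;>
          simp [ha, hb] at h
        · exact Fin.ext h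
        · exact Fin.ext (by omega)
      · intro j
        by_cases hj : (j : ℕ) < r - 2 <;> simp [hj, tl]

lemma lam_ex_le (r : ℕ) (hr : 4 ≤ r) (x y : Vtx r) (hxy : x ≠ y) : lam (ex r) x y ≤ r - 1 := by
  match y with
  | some (i, true) =>
      refine lam_le (ex r) {v | v ≠ some (i, true)} x _ hxy (by simp) (r - 1)
        (fun j => (i, Sum.inl j)) ?_
      rintro ⟨k, (a | a | a | a | a)⟩ h1 h2 <;> simp [ex, tl, hd] at h1 h2
      exact ⟨a, by rw [h2]⟩
  | some (i, false) =>
      refine lam_le (ex r) {v | v ≠ some (i, false)} x _ hxy (by simp) (r - 1)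
        (fun j => if (j : ℕ) = 0 then (i, Sum.inr (Sum.inl 0)) else
          if (j : ℕ) = 1 then (i, Sum.inr (Sum.inl 1)) else
            (i, Sum.inr (Sum.inr (Sum.inr (Sum.inr ()))))) ?_
      rintro ⟨k, (a | a | a | a | a)⟩ h1 h2 <;> simp [ex, tl, hd] at h1 h2
      · subst h2
        match a with
        | 0 => exact ⟨⟨0, by omega⟩, by simp⟩
        | 1 => exact ⟨⟨1, by omega⟩, by simp⟩
      · subst h2
        exact ⟨⟨2, by omega⟩, by simp⟩
  | none =>
      match x with
      | none => exact absurd rfl hxy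
      | some (i, b) =>
          refine lam_le (ex r) {v | ∃ c, v = some (i, c)} _ none ⟨b, rfl⟩ (by simp) (r - 1)
            (fun j => if h : (j : ℕ) < r - 2 then
              (i, Sum.inr (Sum.inr (Sum.inr (Sum.inl ⟨j, h⟩)))) else
              (i, Sum.inr (Sum.inr (Sum.inl ())))) ?_
          rintro ⟨k, (a | a | a | a | a)⟩ h1 h2
          · simp [ex, tl, hd] at h1 h2
            exact absurd h1 h2
          · simp [ex, tl, hd] at h1 h2
            exact absurd h1 h2
          · simp [ex, tl, hd] at h1 h2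
            subst h1
            exact ⟨⟨r - 2, by omega⟩, by simp⟩
          · simp [ex, tl, hd] at h1 h2
            subst h1
            exact ⟨⟨a, by omega⟩, by simp⟩
          · simp [ex, tl, hd] at h1 h2

/-- For every `r ≥ 4` there is a finite digraph (parallel edges allowed, no loops) with minimum
out-degree at least `r` in which at most `r - 1` pairwise edge-disjoint directed paths lead from
`x` to `y`, for every ordered pair of distinct vertices `x`, `y`. -/
theorem result (r : ℕ) (hr : 4 ≤ r) :
    ∃ (V E : Type) (_ : Fintype V) (_ : Nonempty V) (_ : Fintype E) (D : Dig V E),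
      (∀ v, r ≤ outDeg D v) ∧ ∀ x y, x ≠ y → lam D x y ≤ r - 1 :=
  ⟨Vtx r, Edg r, inferInstance, ⟨none⟩, inferInstance, ex r, outDeg_ge r (by omega),
    fun x y hxy => lam_ex_le r hr x y hxy⟩

/-- Sanity check: the supremum in `lam` is attained, the set is bounded by the number of edges
as soon as `x ≠ y`. -/
lemma lam_spec [Fintype E] (D : Dig V E) (x y : V) (hxy : x ≠ y) :
    HasDisjointPaths D x y (lam D x y) := by
  have hz : HasDisjointPaths D x y 0 :=
    ⟨fun i => i.elim0, fun i => i.elim0, fun i => i.elim0⟩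
  have hne : {k | HasDisjointPaths D x y k}.Nonempty := ⟨0, hz⟩
  refine Nat.sSup_mem hne ⟨Fintype.card E, ?_⟩
  rintro k hk
  exact cut_bound D {x} x y rfl (fun h => hxy h.symm) (Fintype.card E)
    (Fintype.equivFin E).symm (fun e _ _ => ⟨Fintype.equivFin E e, by simp⟩) k hk

end Pool.Agent.Results.MP_542d22_co.MaderFalse
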