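import Mathlib

set_option autoImplicit false

namespace Pool.Agent.Results.MP_542d22_co.SixVertices

/-- A digraph with vertex set `V` and edge set `E`: no loops, parallel edges allowed. -/
structure MDigraph (V E : Type) where
  tail : E → V
  head : E → V
  loopless : ∀ e, tail e ≠ head e

variable {V E : Type}

/-- The out-degree of a vertex: the number of edges having it as tail. -/
noncomputable def outDeg (D : MDigraph V E) (v : V) : ℕ := {e : E | D.tail e = v}.ncard

/-- The list of edges `p` is a directed walk from `x` to `y`. -/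
def IsWalk (D : MDigraph V E) : V → V → List E → Prop
  | x, y, [] => x = y
  | x, y, e :: p => D.tail e = x ∧ IsWalk D (D.head e) y p

/-- The list of edges `p` is a directed path from `x` to `y` (no repeated vertex). -/
def IsPath (D : MDigraph V E) (x y : V) (p : List E) : Prop :=
  IsWalk D x y p ∧ (x :: p.map D.head).Nodup

/-- There are `k` pairwise edge-disjoint directed paths from `x` to `y`. -/
def HasDisjointPaths (D : MDigraph V E) (x y : V) (k : ℕ) : Prop :=
  ∃ P : Fin k → List E, (∀ i, IsPath D x y (P i)) ∧ ∀ i j, i ≠ j → List.Disjoint (P i) (P j)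

/-- `lam D x y` is the largest number of pairwise edge-disjoint directed paths from `x` to `y`. -/
noncomputable def lam (D : MDigraph V E) (x y : V) : ℕ := sSup {k | HasDisjointPaths D x y k}

/-- A walk leaving a set of vertices uses an edge that leaves the set. -/
lemma exists_cut_edge (D : MDigraph V E) (X : V → Bool) (y : V) (hy : X y = false) :
    ∀ (p : List E) (x : V), X x = true → IsWalk D x y p →
      ∃ e ∈ p, X (D.tail e) = true ∧ X (D.head e) = false := by
  intro p
  induction p with
  | nil =>
    intro x hx h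
    have h' : x = y := h
    rw [h', hy] at hx
    exact absurd hx (by decide)
  | cons e p ih =>
    intro x hx h
    obtain ⟨h1, h2⟩ := h
    cases hh : X (D.head e) with
    | false => exact ⟨e, List.mem_cons_self, by rw [h1]; exact hx, hh⟩
    | true =>
      obtain ⟨e', he', h3⟩ := ih (D.head e) hh h2
      exact ⟨e', List.mem_cons_of_mem _ he', h3⟩

lemma le_cut [Fintype E] (D : MDigraph V E) (X : V → Bool) (x y : V) (hx : X x = true)
    (hy : X y = false) (k : ℕ) (hk : HasDisjointPaths D x y k) :
    k ≤ (Finset.univ.filter (fun e => X (D.tail e) = true ∧ X (D.head e) = false)).card := by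
  obtain ⟨P, hP, hd⟩ := hk
  choose f hf1 hf2 using fun i => exists_cut_edge D X y hy (P i) x hx (hP i).1
  have hinj : Function.Injective f := by
    intro i j hij
    by_contra hne
    exact hd i j hne (hf1 i) (hij ▸ hf1 j)
  have h1 := Finset.card_le_card_of_injOn (s := (Finset.univ : Finset (Fin k)))
    (t := Finset.univ.filter (fun e => X (D.tail e) = true ∧ X (D.head e) = false)) f
    (fun i _ => by simpa using hf2 i) (hinj.injOn)
  rwa [Finset.card_univ, Fintype.card_fin] at h1

lemma lam_le_cut [Fintype E] (D : MDigraph V E) (X : V → Bool) (x y : V) (hx : X x = true)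
    (hy : X y = false) :
    lam D x y ≤
      (Finset.univ.filter (fun e => X (D.tail e) = true ∧ X (D.head e) = false)).card :=
  csSup_le ⟨0, fun i => i.elim0, fun i => i.elim0, fun i => i.elim0⟩
    (fun k hk => le_cut D X x y hx hy k hk)

/-- The heads of the 24 edges; edge number `e` has tail `e / 4`. -/
def hd : Fin 24 → Fin 6 :=
  ![2, 2, 2, 4, 3, 3, 3, 5, 0, 0, 4, 4, 1, 1, 5, 5, 0, 5, 5, 5, 1, 4, 4, 4]

/-- The tails of the 24 edges. -/
def tl : Fin 24 → Fin 6 :=
  ![0, 0, 0, 0, 1, 1, 1, 1, 2, 2, 2, 2, 3, 3, 3, 3, 4, 4, 4, 4, 5, 5, 5, 5]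

/-- The digraph. -/
def D6 : MDigraph (Fin 6) (Fin 24) := ⟨tl, hd, by decide⟩

/-- The cut used for the pair `(x, y)`. -/
def cutSet (x y : Fin 6) : Fin 6 → Bool := fun v =>
  if y.val < 4 then decide (v ≠ y)
  else if y.val = 4 then
    (if x.val = 0 ∨ x.val = 2 then decide (v.val = 0 ∨ v.val = 2)
      else decide (v.val = 1 ∨ v.val = 3 ∨ v.val = 5))
  else
    (if x.val = 1 ∨ x.val = 3 then decide (v.val = 1 ∨ v.val = 3)
      else decide (v.val = 0 ∨ v.val = 2 ∨ v.val = 4))

lemma cut_ok : ∀ x y : Fin 6, x ≠ y → cutSet x y x = true ∧ cutSet x y y = false ∧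
    (Finset.univ.filter (fun e : Fin 24 => cutSet x y (tl e) = true ∧
      cutSet x y (hd e) = false)).card ≤ 3 := by
  decide +kernel

lemma outDeg_eq (v : Fin 6) : outDeg D6 v = 4 := by
  have h : {e : Fin 24 | D6.tail e = v} =
      ((Finset.univ.filter (fun e : Fin 24 => tl e = v)) : Set (Fin 24)) := by
    ext e
    simp [D6]
  rw [outDeg, h, Set.ncard_coe_finset]
  clear h
  revert v
  decide +kernel

/-- A digraph with minimum out-degree at least `4` in which any ordered pair of distinct vertices
is joined by at most three pairwise edge-disjoint directed paths. -/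
theorem result : ∃ (r : ℕ) (V E : Type) (_ : Finite V) (_ : Finite E) (_ : Nonempty V)
    (D : MDigraph V E), 1 ≤ r ∧ (∀ v, r ≤ outDeg D v) ∧
      ∀ x y : V, x ≠ y → lam D x y ≤ r - 1 := by
  refine ⟨4, Fin 6, Fin 24, inferInstance, inferInstance, ⟨0⟩, D6, by norm_num, ?_, ?_⟩
  · intro v
    rw [outDeg_eq]
  · intro x y hxy
    obtain ⟨h1, h2, h3⟩ := cut_ok x y hxy
    exact (lam_le_cut D6 (cutSet x y) x y h1 h2).trans h3

end Pool.Agent.Results.MP_542d22_co.SixVertices
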